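import Pool.Agent.Y915.Stm2

set_option autoImplicit false

/-!
# Taylor embedding of a differential domain into the integral power series
-/

namespace Pool.Agent.Y68.PC

open scoped PowerSeries Polynomial Nat
open Pool.Agent.Y915

set_option linter.unusedSectionVars false

variable {A : Type} [CommRing A] [IsDomain A] [CharZero A] {d : A → A} {x : A} {e : A →+* ℤ}

theorem factA_ne (m : ℕ) : ((m ! : ℕ) : A) ≠ 0 := by
  exact_mod_cast Nat.factorial_ne_zero m

/-- The divided power `d^[m] g / m !`. -/
noncomputable def qt (h : IsTay A d x e) (m : ℕ) (g : A) : A := (h.hdp m g).choose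

theorem qt_spec (h : IsTay A d x e) (m : ℕ) (g : A) :
    d^[m] g = ((m ! : ℕ) : A) * qt h m g := (h.hdp m g).choose_spec

theorem qt_eq (h : IsTay A d x e) (m : ℕ) (g y : A) (hy : d^[m] g = ((m ! : ℕ) : A) * y) :
    qt h m g = y := by
  apply mul_left_cancel₀ (factA_ne (A := A) m)
  rw [← qt_spec, hy]

theorem qt_zero (h : IsTay A d x e) (g : A) : qt h 0 g = g := by
  apply qt_eq
  simp

theorem qt_add (h : IsTay A d x e) (m : ℕ) (g k : A) :
    qt h m (g + k) = qt h m g + qt h m k := by
  apply qt_eq
  have : ∀ m : ℕ, d^[m] (g + k) = d^[m] g + d^[m] k := by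
    intro m
    induction m with
    | zero => simp
    | succ m ih => rw [Function.iterate_succ_apply', ih, h.add, Function.iterate_succ_apply',
        Function.iterate_succ_apply']
  rw [this, qt_spec h m g, qt_spec h m k]
  ring

theorem qt_d (h : IsTay A d x e) (m : ℕ) (g : A) :
    qt h m (d g) = qt h (m + 1) g * ((m : A) + 1) := by
  apply qt_eq
  rw [← Function.iterate_succ_apply, qt_spec h (m + 1) g, Nat.factorial_succ]
  push_cast
  ring

/-- The formal Taylor series. -/
noncomputable def tser (h : IsTay A d x e) (g : A) : A⟦X⟧ := PowerSeries.mk fun m => qt h m g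

theorem coeff_tser (h : IsTay A d x e) (m : ℕ) (g : A) :
    PowerSeries.coeff m (tser h g) = qt h m g := by simp [tser]

theorem tser_d (h : IsTay A d x e) (g : A) :
    tser h (d g) = PowerSeries.derivative A (tser h g) := by
  ext m
  rw [coeff_tser, PowerSeries.coeff_derivative, coeff_tser, qt_d]

theorem tser_add (h : IsTay A d x e) (g k : A) : tser h (g + k) = tser h g + tser h k := by
  ext m
  rw [map_add, coeff_tser, coeff_tser, coeff_tser, qt_add]

theorem tser_mul (h : IsTay A d x e) (g k : A) : tser h (g * k) = tser h g * tser h k := by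
  have key : ∀ (m : ℕ) (g k : A),
      PowerSeries.coeff m (tser h (g * k)) = PowerSeries.coeff m (tser h g * tser h k) := by
    intro m
    induction m with
    | zero =>
      intro g k
      rw [PowerSeries.coeff_zero_eq_constantCoeff_apply, PowerSeries.coeff_zero_eq_constantCoeff_apply,
        map_mul, ← PowerSeries.coeff_zero_eq_constantCoeff_apply,
        ← PowerSeries.coeff_zero_eq_constantCoeff_apply,
        ← PowerSeries.coeff_zero_eq_constantCoeff_apply, coeff_tser, coeff_tser, coeff_tser,
        qt_zero, qt_zero, qt_zero]
    | succ m ih =>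
      intro g k
      have hne : ((m : A) + 1) ≠ 0 := by exact_mod_cast Nat.succ_ne_zero m
      apply mul_right_cancel₀ hne
      have e1 : PowerSeries.coeff (m + 1) (tser h (g * k)) * ((m : A) + 1) =
          PowerSeries.coeff m (PowerSeries.derivative A (tser h (g * k))) := by
        rw [PowerSeries.coeff_derivative]
      have e2 : PowerSeries.coeff (m + 1) (tser h g * tser h k) * ((m : A) + 1) =
          PowerSeries.coeff m (PowerSeries.derivative A (tser h g * tser h k)) := by
        rw [PowerSeries.coeff_derivative]
      rw [e1, e2, ← tser_d, h.mul, tser_add, map_add, ih, ih, Derivation.leibniz, map_add,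
        tser_d, tser_d, smul_eq_mul, smul_eq_mul]
  ext m
  exact key m g k

theorem d_zero (h : IsTay A d x e) : d 0 = 0 := by
  have := h.add 0 0
  simpa using this

theorem d_one (h : IsTay A d x e) : d 1 = 0 := by
  have := h.mul 1 1
  simpa using this

theorem tser_one (h : IsTay A d x e) : tser h 1 = 1 := by
  ext m
  rw [coeff_tser]
  cases m with
  | zero => rw [qt_zero]; simp
  | succ m =>
    rw [PowerSeries.coeff_one, if_neg (Nat.succ_ne_zero m)]
    apply qt_eq
    rw [Function.iterate_succ_apply, d_one h, mul_zero]
    induction m with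
    | zero => simp
    | succ m ih => rw [Function.iterate_succ_apply', ih, d_zero h]

theorem tser_zero (h : IsTay A d x e) : tser h 0 = 0 := by
  have := tser_add h 0 0
  simpa using this

/-- The formal Taylor series as a ring homomorphism. -/
noncomputable def tHom (h : IsTay A d x e) : A →+* A⟦X⟧ where
  toFun := tser h
  map_one' := tser_one h
  map_mul' := tser_mul h
  map_zero' := tser_zero h
  map_add' := tser_add h

theorem tser_x (h : IsTay A d x e) : tser h x = PowerSeries.C x + PowerSeries.X := by
  ext m
  cases m with
  | zero => simp [coeff_tser, qt_zero]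
  | succ m =>
    have hne : ((m : A) + 1) ≠ 0 := by exact_mod_cast Nat.succ_ne_zero m
    apply mul_right_cancel₀ hne
    have e1 : PowerSeries.coeff (m + 1) (tser h x) * ((m : A) + 1) =
        PowerSeries.coeff m (PowerSeries.derivative A (tser h x)) := by
      rw [PowerSeries.coeff_derivative]
    rw [e1, ← tser_d, h.dx, tser_one]
    rw [map_add, PowerSeries.coeff_C, if_neg (Nat.succ_ne_zero m), PowerSeries.coeff_X,
      PowerSeries.coeff_one]
    by_cases hm : m = 0
    · subst hm; simp
    · have : m + 1 ≠ 1 := by omega
      simp [hm]

theorem tay : StTay := by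
  intro A _ _ _ d x e h
  let τ : A →+* ℤ⟦X⟧ := (PowerSeries.map e).comp (tHom h)
  have hτ : ∀ g, τ g = PowerSeries.map e (tser h g) := fun g => rfl
  have hx : τ x = PowerSeries.X := by
    rw [hτ, tser_x, map_add, PowerSeries.map_C, h.ex, PowerSeries.map_X]
    simp
  refine ⟨τ, ?_, hx, ?_, ?_⟩
  · rw [injective_iff_map_eq_zero]
    intro g hg
    by_contra hne
    -- the structure map
    set ph : ℤ[X] →+* A := Polynomial.eval₂RingHom (Int.castRingHom A) x with hph
    have hcomp : τ.comp ph = Polynomial.coeToPowerSeries.ringHom := by
      apply Polynomial.ringHom_ext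
      · intro n
        simp
      · rw [RingHom.comp_apply, hph, Polynomial.coe_eval₂RingHom, Polynomial.eval₂_X, hx]
        simp
    have key : ∀ (n : ℕ) (P : ℤ[X][X]), P.natDegree ≤ n → P ≠ 0 → P.eval₂ ph g = 0 → False := by
      intro n
      induction n with
      | zero =>
        intro P hn hP he
        rw [Polynomial.eq_C_of_natDegree_le_zero hn] at he hP
        rw [Polynomial.eval₂_C] at he
        have h1 : (τ.comp ph) (P.coeff 0) = 0 := by rw [RingHom.comp_apply, he, map_zero]
        rw [hcomp] at h1
        apply hP
        have h2 : P.coeff 0 = 0 := by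
          apply Polynomial.coe_injective ℤ
          simpa using h1
        rw [h2, map_zero]
      | succ n ih =>
        intro P hn hP he
        by_cases h0 : P.coeff 0 = 0
        · have hdiv : P = Polynomial.divX P * Polynomial.X := by
            conv_lhs => rw [← Polynomial.divX_mul_X_add P, h0, map_zero, add_zero]
          have he' : (Polynomial.divX P).eval₂ ph g * g = 0 := by
            rw [hdiv, Polynomial.eval₂_mul, Polynomial.eval₂_X] at he
            exact he
          have hd0 : (Polynomial.divX P).eval₂ ph g = 0 := by
            rcases mul_eq_zero.mp he' with h1 | h1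
            · exact h1
            · exact absurd h1 hne
          refine ih (Polynomial.divX P) ?_ ?_ hd0
          · rw [Polynomial.natDegree_divX_eq_natDegree_tsub_one]
            omega
          · intro h1
            apply hP
            rw [hdiv, h1, zero_mul]
        · have h1 : τ (P.eval₂ ph g) = 0 := by rw [he, map_zero]
          rw [Polynomial.hom_eval₂, hg, hcomp, Polynomial.eval₂_at_zero] at h1
          apply h0
          apply Polynomial.coe_injective ℤ
          simpa using h1
    obtain ⟨P, hP, he⟩ := h.alg g
    exact key P.natDegree P le_rfl hP he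
  · intro g
    rw [hτ, ← PowerSeries.coeff_zero_eq_constantCoeff_apply, PowerSeries.coeff_map, coeff_tser,
      qt_zero]
  · intro g
    rw [hτ, hτ, tser_d]
    ext m
    rw [PowerSeries.coeff_map, PowerSeries.coeff_derivative, PowerSeries.coeff_derivative,
      PowerSeries.coeff_map]
    simp

end Pool.Agent.Y68.PC
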